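import Mathlib

/-!
Edge-splitting induction for finite trees: every connected vertex set `S` with a root `r` is
either `{r}` or splits along an edge `r k` in two connected parts `R ∋ r`, `K ∋ k`.
-/

namespace Pool.Agent.R455

open SimpleGraph Finset

variable {V : Type*} [DecidableEq V]

/-- `S` is connected inside `G`: any two members are joined by a walk staying in `S`. -/
def ConnOn (G : SimpleGraph V) (S : Finset V) : Prop :=
  ∀ x ∈ S, ∀ y ∈ S, ∃ w : G.Walk x y, ∀ z ∈ w.support, z ∈ S

theorem connOn_univ [Fintype V] {G : SimpleGraph V} (h : G.Connected) : ConnOn G univ := by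
  intro x _ y _
  obtain ⟨w⟩ := h.preconnected x y
  exact ⟨w, fun z _ => mem_univ z⟩

theorem tree_split (G : SimpleGraph V) (hG : G.IsAcyclic) (S : Finset V) (hS : ConnOn G S)
    (r : V) (hr : r ∈ S) (hne : S ≠ {r}) :
    ∃ R K : Finset V, ∃ k, ConnOn G R ∧ ConnOn G K ∧ r ∈ R ∧ k ∈ K ∧ Disjoint R K ∧
      R ∪ K = S ∧ G.Adj r k ∧ (∀ x ∈ R, ∀ y ∈ K, G.Adj x y → x = r ∧ y = k) := by
  classical
  -- a neighbour of r in S
  obtain ⟨y, hy, hyr⟩ : ∃ y ∈ S, y ≠ r := by
    by_contra hcon
    push Not at hcon
    apply hne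
    ext z
    simp only [mem_singleton]
    exact ⟨fun hz => hcon z hz, fun hz => hz ▸ hr⟩
  obtain ⟨w, hw⟩ := hS r hr y hy
  obtain ⟨k, hk, hkS⟩ : ∃ k, G.Adj r k ∧ k ∈ S := by
    cases w with
    | nil => exact absurd rfl hyr
    | cons h p => exact ⟨_, h, hw _ (by simp)⟩
  have hkr : k ≠ r := hk.ne'
  -- K = part of S reachable from k without r
  let K : Finset V := S.filter (fun z => ∃ w : G.Walk k z, ∀ t ∈ w.support, t ∈ S ∧ t ≠ r)
  have hKmem : ∀ z, z ∈ K ↔ z ∈ S ∧ ∃ w : G.Walk k z, ∀ t ∈ w.support, t ∈ S ∧ t ≠ r := by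
    intro z; simp [K]
  have hkK : k ∈ K := by
    rw [hKmem]
    refine ⟨hkS, Walk.nil, ?_⟩
    intro t ht
    simp only [Walk.support_nil, List.mem_singleton] at ht
    subst ht
    exact ⟨hkS, hkr⟩
  have hrK : r ∉ K := by
    rw [hKmem]
    rintro ⟨_, w, hw⟩
    exact (hw r (Walk.end_mem_support w)).2 rfl
  -- closure of K under adjacency inside S \ {r}
  have hclos : ∀ x ∈ K, ∀ y ∈ S, y ≠ r → G.Adj x y → y ∈ K := by
    intro x hx y hy hyr hxy
    rw [hKmem] at hx ⊢
    obtain ⟨hxS, w, hw⟩ := hx
    refine ⟨hy, w.concat hxy, ?_⟩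
    intro t ht
    rw [Walk.support_concat] at ht
    simp only [List.concat_eq_append, List.mem_append, List.mem_singleton] at ht
    rcases ht with ht | ht
    · exact hw t ht
    · subst ht; exact ⟨hy, hyr⟩
  -- members along walks of K are in K
  have hwalkK : ∀ z (w : G.Walk k z), (∀ t ∈ w.support, t ∈ S ∧ t ≠ r) → ∀ t ∈ w.support, t ∈ K := by
    intro z w hw t ht
    rw [hKmem]
    refine ⟨(hw t ht).1, w.takeUntil t ht, ?_⟩
    intro s hs
    exact hw s (w.support_takeUntil_subset ht hs)
  refine ⟨S \ K, K, k, ?_, ?_, ?_, hkK, ?_, ?_, hk, ?_⟩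
  · -- R connected
    -- every x in R has a walk in R from r
    have key : ∀ x ∈ S \ K, ∃ w : G.Walk r x, ∀ z ∈ w.support, z ∈ S \ K := by
      intro x hx
      rw [mem_sdiff] at hx
      obtain ⟨w, hw⟩ := hS r hr x hx.1
      -- path
      let p := w.bypass
      have hp : p.IsPath := w.bypass_isPath
      have hpS : ∀ z ∈ p.support, z ∈ S := fun z hz => hw z (w.support_bypass_subset hz)
      refine ⟨p, ?_⟩
      intro z hz
      rw [mem_sdiff]
      refine ⟨hpS z hz, ?_⟩
      intro hzK
      -- the rest of p after z avoids r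
      have hzr : z ≠ r := fun h => hrK (h ▸ hzK)
      have hx' : x ∈ K := by
        -- induct along dropUntil
        have hd : ∀ t ∈ (p.dropUntil z hz).support, t ∈ S ∧ t ≠ r := by
          intro t ht
          refine ⟨hpS t (p.support_dropUntil_subset hz ht), ?_⟩
          rintro rfl
          -- r is in both takeUntil and dropUntil: contradiction with path
          have hnodup := hp.support_nodup
          rw [← p.take_spec hz, Walk.support_append] at hnodup
          have h1 : t ∈ (p.takeUntil z hz).support := Walk.start_mem_support _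
          have h2 : t ∈ (p.dropUntil z hz).support.tail := by
            have := (p.dropUntil z hz).support_eq_cons
            rw [this] at ht
            rcases List.mem_cons.1 ht with h | h
            · exact absurd h.symm hzr
            · exact h
          exact (List.nodup_append.1 hnodup).2.2 t h1 t h2 rfl
        rw [hKmem] at hzK ⊢
        obtain ⟨_, w1, hw1⟩ := hzK
        refine ⟨hx.1, w1.append (p.dropUntil z hz), ?_⟩
        intro t ht
        rw [Walk.mem_support_append_iff] at ht
        rcases ht with ht | ht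
        · exact hw1 t ht
        · exact hd t ht
      exact hx.2 hx'
    intro x hx y hy
    obtain ⟨w1, hw1⟩ := key x hx
    obtain ⟨w2, hw2⟩ := key y hy
    refine ⟨w1.reverse.append w2, ?_⟩
    intro z hz
    rw [Walk.mem_support_append_iff] at hz
    rcases hz with hz | hz
    · rw [Walk.support_reverse, List.mem_reverse] at hz
      exact hw1 z hz
    · exact hw2 z hz
  · -- K connected
    intro x hx y hy
    rw [hKmem] at hx hy
    obtain ⟨_, w1, hw1⟩ := hx
    obtain ⟨_, w2, hw2⟩ := hy
    refine ⟨w1.reverse.append w2, ?_⟩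
    intro z hz
    rw [Walk.mem_support_append_iff] at hz
    rcases hz with hz | hz
    · rw [Walk.support_reverse, List.mem_reverse] at hz
      exact hwalkK _ w1 hw1 z hz
    · exact hwalkK _ w2 hw2 z hz
  · rw [mem_sdiff]; exact ⟨hr, hrK⟩
  · exact sdiff_disjoint
  · exact sdiff_union_of_subset (filter_subset _ _)
  · intro x hx y hy hxy
    rw [mem_sdiff] at hx
    have hyK := hy
    rw [hKmem] at hy
    have hyr : y ≠ r := fun h => hrK (h ▸ hyK)
    have hxr : x = r := by
      by_contra hxr
      exact hx.2 (hclos y hyK x hx.1 hxr hxy.symm)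
    refine ⟨hxr, ?_⟩
    subst hxr
    by_contra hyk
    obtain ⟨_, w, hw⟩ := hy
    -- two paths from k to y: via x, and w.bypass avoiding x
    let p := w.bypass
    have hp : p.IsPath := w.bypass_isPath
    have hpr : x ∉ p.support := fun h => (hw x (w.support_bypass_subset h)).2 rfl
    let q : G.Walk k y := Walk.cons hk.symm (Walk.cons hxy Walk.nil)
    have hq : q.IsPath := by
      simp only [q, Walk.cons_isPath_iff, Walk.isPath_iff_eq_nil, Walk.support_cons, Walk.support_nil,
        List.mem_cons, List.mem_singleton, List.not_mem_nil, or_false, not_or]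
      refine ⟨⟨trivial, fun h => hyr h.symm⟩, hkr, fun h => hyk h.symm⟩
    have := hG.path_unique ⟨p, hp⟩ ⟨q, hq⟩
    have h2 : p = q := congrArg Subtype.val this
    apply hpr
    rw [h2]
    simp [q]

theorem tree_induction (G : SimpleGraph V) (hG : G.IsAcyclic) (P : Finset V → V → Prop)
    (base : ∀ r, P {r} r)
    (step : ∀ (R K : Finset V) (r k : V), r ∈ R → k ∈ K → Disjoint R K → G.Adj r k →
      (∀ x ∈ R, ∀ y ∈ K, G.Adj x y → x = r ∧ y = k) → P R r → P K k → P (R ∪ K) r)
    (S : Finset V) (hS : ConnOn G S) (r : V) (hr : r ∈ S) : P S r := by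
  induction hn : S.card using Nat.strong_induction_on generalizing S r with
  | _ n ih =>
    by_cases hne : S = {r}
    · rw [hne]; exact base r
    · obtain ⟨R, K, k, hR, hK, hrR, hkK, hd, hu, hadj, hcut⟩ := tree_split G hG S hS r hr hne
      have hcard : R.card + K.card = S.card := by rw [← hu, card_union_of_disjoint hd]
      have hR0 : 0 < R.card := card_pos.2 ⟨r, hrR⟩
      have hK0 : 0 < K.card := card_pos.2 ⟨k, hkK⟩
      rw [← hu]
      exact step R K r k hrR hkK hd hadj hcut (ih R.card (by omega) R hR r hrR rfl)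
        (ih K.card (by omega) K hK k hkK rfl)

end Pool.Agent.R455
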